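import Mathlib
import Pool.Agent.H.MP_d572aa_gt.A

namespace Pool.Agent.Results.MP_49a3fa_co.Pentagon

open MeasureTheory Set Module EuclideanGeometry
open Pool.Agent.H.MP_d572aa_gt
open scoped RealInnerProductSpace Pointwise

/-- The Euclidean plane. -/
abbrev P := EuclideanSpace ℝ (Fin 2)

/-- A convex body. -/
def Body (K : Set P) : Prop := IsCompact K ∧ Convex ℝ K ∧ (interior K).Nonempty

/-- The pentagon with vertices `(0,0), (21,0), (23,28), (2,31), (0,15)`. -/
def H (x y : ℝ) : Prop :=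
  0 ≤ x ∧ 0 ≤ y ∧ 14 * x - y ≤ 294 ∧ x + 7 * y ≤ 219 ∧ y - 8 * x ≤ 15

/-- A certificate for the direction `(c, s)`. -/
def Cert (c s : ℝ) : Prop :=
  ∃ z0 z1 p0 p1 q0 q1 : ℝ, H z0 z1 ∧ H p0 p1 ∧ H q0 q1 ∧ 0 ≤ (z0 - p0) * c + (z1 - p1) * s ∧
    640 * (c ^ 2 + s ^ 2) < ((z0 - p0) * c + (z1 - p1) * s) * ((z1 - q1) * c - (z0 - q0) * s)

theorem sector (a b a' b' z0 z1 p0 p1 q0 q1 : ℝ) {c s : ℝ} (h : 0 < c ^ 2 + s ^ 2)
    (h1 : 0 ≤ a * s - b * c) (h2 : a' * s - b' * c ≤ 0)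
    (k : H z0 z1 ∧ H p0 p1 ∧ H q0 q1 ∧ 0 < a * b' - b * a' ∧
      0 ≤ (z0 - p0) * a + (z1 - p1) * b ∧ 0 ≤ (z0 - p0) * a' + (z1 - p1) * b' ∧
      640 * (a ^ 2 + b ^ 2) < ((z0 - p0) * a + (z1 - p1) * b) * ((z1 - q1) * a - (z0 - q0) * b) ∧
      640 * (a' ^ 2 + b' ^ 2) <
        ((z0 - p0) * a' + (z1 - p1) * b') * ((z1 - q1) * a' - (z0 - q0) * b') ∧
      1280 * (a * a' + b * b') ≤
        ((z0 - p0) * a + (z1 - p1) * b) * ((z1 - q1) * a' - (z0 - q0) * b') +
        ((z0 - p0) * a' + (z1 - p1) * b') * ((z1 - q1) * a - (z0 - q0) * b)) : Cert c s := by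
  obtain ⟨k1, k2, k3, hD, u1, u2, Q1, Q2, B⟩ := k
  obtain ⟨α, β, hα, hβ, rfl, rfl⟩ : ∃ α β : ℝ, 0 ≤ α ∧ 0 ≤ β ∧ c = α * a + β * a' ∧
      s = α * b + β * b' :=
    ⟨(b' * c - a' * s) / (a * b' - b * a'), (a * s - b * c) / (a * b' - b * a'),
      div_nonneg (by linarith) hD.le, div_nonneg h1 hD.le, 
      by rw [div_mul_eq_mul_div, div_mul_eq_mul_div, ← add_div, eq_div_iff hD.ne']; ring,
      by rw [div_mul_eq_mul_div, div_mul_eq_mul_div, ← add_div, eq_div_iff hD.ne']; ring⟩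
  refine ⟨z0, z1, p0, p1, q0, q1, k1, k2, k3, by linarith [mul_nonneg hα u1, mul_nonneg hβ u2], ?_⟩
  have t3 := mul_nonneg (mul_nonneg hα hβ) (sub_nonneg.2 B)
  have t1 := mul_nonneg (sq_nonneg α) (sub_pos.2 Q1).le
  have t2 := mul_nonneg (sq_nonneg β) (sub_pos.2 Q2).le
  rcases hα.eq_or_lt with e | e
  · subst e
    have hb : β ≠ 0 := by rintro rfl; simp at h
    have := mul_pos (sq_pos_of_ne_zero hb) (sub_pos.2 Q2)
    linarith
  · have := mul_pos (pow_pos e 2) (sub_pos.2 Q1)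
    linarith

theorem cert {c s : ℝ} (h : 0 < c ^ 2 + s ^ 2) : Cert c s := by
  rcases le_total 0 s with hs | hs
  · rcases le_total (1 * s - 1 * c) 0 with h0 | h0
    · exact sector 1 0 1 1 23 28 0 0 21 0 h (by linarith) h0 (by norm_num [H])
    rcases le_total (1 * s - 6 * c) 0 with h1 | h1
    · exact sector 1 1 1 6 2 31 0 0 21 0 h h0 h1 (by norm_num [H])
    rcases le_total ((-1) * s - 16 * c) 0 with h2 | h2
    · exact sector 1 6 (-1) 16 2 31 0 0 23 28 h h1 h2 (by norm_num [H])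
    rcases le_total ((-3) * s - 7 * c) 0 with h3 | h3
    · exact sector (-1) 16 (-3) 7 2 31 21 0 23 28 h h2 h3 (by norm_num [H])
    rcases le_total ((-5) * s - 8 * c) 0 with h4 | h4
    · exact sector (-3) 7 (-5) 8 1 23 21 0 23 28 h h3 h4 (by norm_num [H])
    rcases le_total ((-4) * s - 5 * c) 0 with h5 | h5
    · exact sector (-5) 8 (-4) 5 (1 / 2) 19 21 0 23 28 h h4 h5 (by norm_num [H])
    rcases le_total ((-8) * s - 7 * c) 0 with h6 | h6
    · exact sector (-4) 5 (-8) 7 0 15 21 0 23 28 h h5 h6 (by norm_num [H])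
    rcases le_total ((-3) * s - 2 * c) 0 with h7 | h7
    · exact sector (-8) 7 (-3) 2 0 (75 / 8) 21 0 23 28 h h6 h7 (by norm_num [H])
    rcases le_total ((-8) * s - 3 * c) 0 with h8 | h8
    · exact sector (-3) 2 (-8) 3 0 (15 / 4) 21 0 23 28 h h7 h8 (by norm_num [H])
    rcases le_total ((-7) * s - 1 * c) 0 with h9 | h9
    · exact sector (-8) 3 (-7) 1 0 0 21 0 23 28 h h8 h9 (by norm_num [H])
    exact sector (-7) 1 (-1) 0 0 0 21 0 2 31 h h9 (by linarith) (by norm_num [H])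
  · rcases le_total ((-4) * s - (-5) * c) 0 with h0 | h0
    · exact sector (-1) 0 (-4) (-5) 0 0 23 28 2 31 h (by linarith) h0 (by norm_num [H])
    rcases le_total ((-1) * s - (-5) * c) 0 with h1 | h1
    · exact sector (-4) (-5) (-1) (-5) 21 0 23 28 2 31 h h0 h1 (by norm_num [H])
    rcases le_total ((-1) * s - (-9) * c) 0 with h2 | h2
    · exact sector (-1) (-5) (-1) (-9) 21 0 2 31 2 31 h h1 h2 (by norm_num [H])
    rcases le_total (1 * s - (-13) * c) 0 with h3 | h3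
    · exact sector (-1) (-9) 1 (-13) 21 0 2 31 0 15 h h2 h3 (by norm_num [H])
    rcases le_total (3 * s - (-5) * c) 0 with h4 | h4
    · exact sector 1 (-13) 3 (-5) 21 0 2 31 0 0 h h3 h4 (by norm_num [H])
    rcases le_total (5 * s - (-4) * c) 0 with h5 | h5
    · exact sector 3 (-5) 5 (-4) 22 14 2 31 0 0 h h4 h5 (by norm_num [H])
    rcases le_total (6 * s - (-1) * c) 0 with h6 | h6
    · exact sector 5 (-4) 6 (-1) 23 28 2 31 0 0 h h5 h6 (by norm_num [H])
    exact sector 6 (-1) 1 0 23 28 0 15 0 0 h h6 (by linarith) (by norm_num [H])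

/-- The pentagon. -/
def K : Set P := {x | H (x 0) (x 1)}

theorem bodyK : Body K := by
  refine ⟨?_, ?_, ⟨WithLp.toLp 2 ![10, 10], ?_⟩⟩
  · refine ((EuclideanSpace.equiv (Fin 2) ℝ).toHomeomorph.isCompact_preimage.2
      (isCompact_Icc (a := fun _ => 0) (b := fun _ => 219))).of_isClosed_subset ?_ fun x hx => ?_
    · unfold K H
      repeat' apply IsClosed.and
      all_goals exact isClosed_le (by fun_prop) (by fun_prop)
    · obtain ⟨h1, h2, h3, h4, h5⟩ := hx
      constructor <;> intro i <;> fin_cases i <;> simp <;> linarith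
  · rintro x ⟨h1, h2, h3, h4, h5⟩ y ⟨k1, k2, k3, k4, k5⟩ a b ha hb hab
    simp only [K, H, mem_ofPred_eq, PiLp.add_apply, PiLp.smul_apply, smul_eq_mul]
    refine ⟨?_, ?_, ?_, ?_, ?_⟩ <;> nlinarith
  · refine mem_interior.2 ⟨{x | 0 < x 0 ∧ 0 < x 1 ∧ 14 * x 0 - x 1 < 294 ∧ x 0 + 7 * x 1 < 219 ∧
      x 1 - 8 * x 0 < 15}, fun x ⟨h1, h2, h3, h4, h5⟩ => ⟨h1.le, h2.le, h3.le, h4.le, h5.le⟩,
      ?_, ?_⟩
    · repeat' apply IsOpen.and
      all_goals exact isOpen_lt (by fun_prop) (by fun_prop)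
    · simp; norm_num

/-- An open neighbourhood of the closed standard triangle, in the vertical direction. -/
def R1 : Set (ℝ × ℝ) := regionBetween (fun _ => -(1 / 2000)) (fun x => 1 - x + 1 / 2000) (Icc 0 1)

theorem vol_R1 : volume R1 = ENNReal.ofReal (501 / 1000) := by
  rw [R1, Measure.volume_eq_prod, volume_regionBetween_eq_integral (by simp)
    (by fun_prop : Continuous fun x : ℝ => 1 - x + 1 / 2000).integrableOn_Icc
    measurableSet_Icc (fun x hx => by linarith [hx.2])]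
  congr 1
  rw [integral_Icc_eq_integral_Ioc, ← intervalIntegral.integral_of_le zero_le_one,
    intervalIntegral.integral_congr (g := fun x => 1001 / 1000 - x) (fun x _ => by simp; ring),
    intervalIntegral.integral_sub (by simp) (by simp)]
  norm_num

theorem vol_L (a b : ℝ × ℝ) : volume (L a b '' R1) = ENNReal.ofReal (|dt a b| * (501 / 1000)) := by
  rw [Measure.addHaar_image_linearMap, vol_R1, L, LinearMap.det_toLin,
    ← ENNReal.ofReal_mul (abs_nonneg _), Matrix.det_fin_two_of, dt]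
  congr 1; ring_nf

theorem mem_L (a b z : ℝ × ℝ) (s t : ℝ) (hs : 0 ≤ s) (ht : 0 ≤ t) (h : s + t ≤ 1)
    (h1 : s * a.1 + t * b.1 = z.1) (h2 : s * a.2 + t * b.2 = z.2) : z ∈ L a b '' R1 :=
  ⟨(s, t), ⟨⟨hs, by linarith⟩, show _ < t by linarith, show t < 1 - s + _ by linarith⟩, by
    rw [L_apply]; ext <;> simpa⟩

theorem volK : volume.real K ≤ 640 := by
  have c := bodyK.1.image co.continuous_of_finiteDimensional
  have v := co_mp.measure_preimage c.measurableSet.nullMeasurableSet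
  rw [co_inj.preimage_image] at v
  have sub : co '' K ⊆ L (21, 0) (23, 28) '' R1 ∪ L (23, 28) (2, 31) '' R1 ∪
      L (2, 31) (0, 15) '' R1 := by
    rintro _ ⟨x, ⟨h1, h2, h3, h4, h5⟩, rfl⟩
    change (x 0, x 1) ∈ _
    rcases le_total (23 * x 1) (28 * x 0) with a | a
    · exact .inl (.inl (mem_L _ _ _ ((28 * x 0 - 23 * x 1) / 588) (x 1 / 28) (by linarith)
        (by linarith) (by linarith) (by simp only; ring) (by simp only; ring)))
    rcases le_total (2 * x 1) (31 * x 0) with b | b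
    · exact .inl (.inr (mem_L _ _ _ ((31 * x 0 - 2 * x 1) / 657) ((23 * x 1 - 28 * x 0) / 657)
        (by linarith) (by linarith) (by linarith) (by simp only; ring) (by simp only; ring)))
    · exact .inr (mem_L _ _ _ (x 0 / 2) ((2 * x 1 - 31 * x 0) / 30) (by linarith)
        (by linarith) (by linarith) (by simp only; ring) (by simp only; ring))
  have := (measure_mono (μ := volume) sub).trans ((measure_union_le _ _).trans
    (add_le_add_left (measure_union_le _ _) _))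
  rw [← v, vol_L, vol_L, vol_L, ← ENNReal.ofReal_add (by positivity) (by positivity),
    ← ENNReal.ofReal_add (by positivity) (by positivity)] at this
  exact (ENNReal.toReal_le_of_le_ofReal (by positivity) this).trans (by norm_num [dt])

theorem main {μ : ℝ} (hμ : 0 < μ) {A B C : P} (hA : A ≠ C)
    (h0 : (A 0 - C 0) * (B 0 - C 0) + (A 1 - C 1) * (B 1 - C 1) = 0)
    (hd : 0 < (A 0 - C 0) * (B 1 - C 1) - (A 1 - C 1) * (B 0 - C 0))
    (hK : μ • K ⊆ convexHull ℝ {A, B, C}) :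
    1280 * μ ^ 2 < volume.real (convexHull ℝ ({A, B, C} : Set P)) := by
  have g := gram (W := P) (by simp) (convex_convexHull ℝ {A, B, C})
    ((toFinite {A, B, C}).isCompact_convexHull ℝ) (p := C) (q := A) (r := B) (w := C)
    (subset_convexHull _ _ (by simp)) (subset_convexHull _ _ (by simp))
    (subset_convexHull _ _ (by simp)) (subset_convexHull _ _ (by simp))
  simp only [PiLp.inner_apply, Fin.sum_univ_two, PiLp.sub_apply, RCLike.inner_apply,
    conj_trivial] at g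
  set c := A 0 - C 0 with hc
  set s := A 1 - C 1 with hs
  have n : 0 < c ^ 2 + s ^ 2 := by
    by_contra k
    have e1 : c = 0 := pow_eq_zero_iff two_ne_zero |>.1 (by linarith [sq_nonneg c, sq_nonneg s])
    have e2 : s = 0 := pow_eq_zero_iff two_ne_zero |>.1 (by linarith [sq_nonneg c, sq_nonneg s])
    simp [e1, e2] at hd
  obtain ⟨l, hl, b0, b1⟩ : ∃ l : ℝ, 0 < l ∧ B 0 - C 0 = -(l * s) ∧ B 1 - C 1 = l * c :=
    ⟨_, div_pos hd n, by field_simp; linear_combination c * h0,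
      by field_simp; linear_combination s * h0⟩
  have tri : convexHull ℝ ({A, B, C} : Set P) ⊆ {z | 0 ≤ (z 0 - C 0) * c + (z 1 - C 1) * s ∧
      0 ≤ (z 1 - C 1) * c - (z 0 - C 0) * s ∧ l * ((z 0 - C 0) * c + (z 1 - C 1) * s) +
        ((z 1 - C 1) * c - (z 0 - C 0) * s) ≤ l * (c ^ 2 + s ^ 2)} := by
    refine convexHull_min ?_ ?_
    · rintro z (rfl | rfl | rfl) <;> simp only [mem_ofPred_eq, ← hc, ← hs, b0, b1, sub_self] <;>
        refine ⟨?_, ?_, ?_⟩ <;> linarith [mul_pos hl n]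
    · rintro x ⟨h1, h2, h3⟩ y ⟨k1, k2, k3⟩ a b ha hb hab
      simp only [mem_ofPred_eq, PiLp.add_apply, PiLp.smul_apply, smul_eq_mul]
      obtain rfl : b = 1 - a := by linarith
      refine ⟨?_, ?_, ?_⟩
      · linarith [mul_nonneg ha h1, mul_nonneg hb k1]
      · linarith [mul_nonneg ha h2, mul_nonneg hb k2]
      · linarith [mul_le_mul_of_nonneg_left h3 ha, mul_le_mul_of_nonneg_left k3 hb]
  obtain ⟨z0, z1, p0, p1, q0, q1, hz, hp, hq, u, Q⟩ := cert n
  have m : ∀ x y, H x y → _ := fun x y h =>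
    tri (hK (smul_mem_smul_set (a := μ) (show (WithLp.toLp 2 ![x, y] : P) ∈ K from h)))
  obtain ⟨-, -, z3⟩ := m _ _ hz
  obtain ⟨p1', -, -⟩ := m _ _ hp
  obtain ⟨-, q2, -⟩ := m _ _ hq
  simp only [PiLp.smul_apply, smul_eq_mul, Matrix.cons_val_zero, Matrix.cons_val_one] at z3 p1' q2
  set U := (z0 - p0) * c + (z1 - p1) * s with hU
  set V := (z1 - q1) * c - (z0 - q0) * s with hV
  set N := c ^ 2 + s ^ 2 with hN
  have e : l * (μ * U) + μ * V ≤ l * N := by
    have := mul_nonneg hl.le p1'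
    rw [hU, hV]; linarith
  have V0 : 0 < V := by
    by_contra k
    linarith [mul_nonneg u (neg_nonneg.2 (not_lt.1 k))]
  have e2 : 4 * (l * (μ * U)) * (μ * V) ≤ (l * N) ^ 2 := by
    have : 0 ≤ l * (μ * U) + μ * V := by positivity
    have : (l * (μ * U) + μ * V) ^ 2 ≤ (l * N) ^ 2 := by gcongr
    linarith [sq_nonneg (l * (μ * U) - μ * V)]
  have e3 : 4 * l * μ ^ 2 * (640 * N) < 4 * l * μ ^ 2 * (U * V) := by gcongr
  have e4 : 2560 * μ ^ 2 < l * N :=
    lt_of_mul_lt_mul_left (a := l * N) (by linarith) (mul_pos hl n).le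
  have e5 : (l * N) ^ 2 ≤ (2 * volume.real (convexHull ℝ ({A, B, C} : Set P))) ^ 2 := by
    refine le_of_eq_of_le ?_ g
    rw [b0, b1, hN]; ring
  have := (abs_le_of_sq_le_sq' e5 (by positivity)).2
  linarith

theorem result : ∃ K : Set P, Body K ∧ volume.real K = 1 ∧
    ∀ A B C : P, A ≠ C → B ≠ C → ∠ A C B = Real.pi / 2 → K ⊆ convexHull ℝ {A, B, C} →
      2 < volume.real (convexHull ℝ ({A, B, C} : Set P)) := by
  have V0 : 0 < volume.real K := ENNReal.toReal_pos
    (Measure.measure_pos_of_nonempty_interior _ bodyK.2.2).ne' bodyK.1.measure_lt_top.ne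
  have hμ : 0 < (√(volume.real K))⁻¹ := by positivity
  have hμ2 : (√(volume.real K))⁻¹ ^ 2 * volume.real K = 1 := by
    rw [inv_pow, Real.sq_sqrt V0.le, inv_mul_cancel₀ V0.ne']
  generalize (√(volume.real K))⁻¹ = μ at *
  refine ⟨μ • K, ⟨bodyK.1.smul μ, bodyK.2.1.smul μ, ?_⟩, ?_, fun A B C hA hB h hK => ?_⟩
  · rw [interior_smul₀ hμ.ne']; exact bodyK.2.2.smul_set
  · rw [Measure.real, Measure.addHaar_smul_of_nonneg _ hμ.le, ENNReal.toReal_mul,
      ENNReal.toReal_ofReal (by positivity), finrank_euclideanSpace_fin]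
    exact hμ2
  · have h0 := (InnerProductGeometry.inner_eq_zero_iff_angle_eq_pi_div_two _ _).2 h
    simp only [PiLp.inner_apply, Fin.sum_univ_two, vsub_eq_sub, PiLp.sub_apply, RCLike.inner_apply,
      conj_trivial] at h0
    have k : 2 ≤ 1280 * μ ^ 2 := by nlinarith [volK, sq_nonneg μ]
    have nz : ∀ X : P, X ≠ C → 0 < (X 0 - C 0) ^ 2 + (X 1 - C 1) ^ 2 := fun X hX => by
      by_contra k
      refine hX ?_
      have e1 : X 0 - C 0 = 0 := pow_eq_zero_iff two_ne_zero |>.1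
        (by linarith [sq_nonneg (X 0 - C 0), sq_nonneg (X 1 - C 1)])
      have e2 : X 1 - C 1 = 0 := pow_eq_zero_iff two_ne_zero |>.1
        (by linarith [sq_nonneg (X 0 - C 0), sq_nonneg (X 1 - C 1)])
      ext i; fin_cases i <;> simp <;> linarith
    rcases lt_trichotomy 0 ((A 0 - C 0) * (B 1 - C 1) - (A 1 - C 1) * (B 0 - C 0)) with d | d | d
    · exact k.trans_lt (main hμ hA (by linarith) d hK)
    · refine absurd ?_ (mul_pos (nz A hA) (nz B hB)).ne'
      have e : ∀ a b c d : ℝ, c * a + d * b = 0 → 0 = a * d - b * c →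
          (a ^ 2 + b ^ 2) * (c ^ 2 + d ^ 2) = 0 := fun a b c d h1 h2 => by
        linear_combination (c * a + d * b) * h1 - (a * d - b * c) * h2
      exact e _ _ _ _ h0 d
    · rw [insert_comm] at hK ⊢
      exact k.trans_lt (main hμ hB (by linarith) (by linarith) hK)

end Pool.Agent.Results.MP_49a3fa_co.Pentagon
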